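import Pool.Agent.Run7.h480.BF.Iface

set_option autoImplicit false

/-!
# Project BF, pieces LEV and SAME

Level sets of points of the Bergman fan are flats; a loopless matroid is determined by its Bergman fan.
-/

open Set Module

namespace Run7.h882.BF

open Run7.h480.BF

variable {E : Type} [Fintype E]

open Classical in
theorem wt_eq_sum (w : E → ℝ) (B : Set E) :
    wt w B = ∑ i ∈ Finset.univ.filter (fun i => i ∈ B), w i := by
  unfold wt
  rw [Finset.sum_filter]
  refine Finset.sum_congr rfl fun i _ => ?_
  by_cases h : i ∈ B <;> simp [h]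

open Classical in
theorem ncard_eq_filter (B F : Set E) :
    (B ∩ F).ncard = ((Finset.univ.filter (fun i => i ∈ B)).filter (fun i => i ∈ F)).card := by
  rw [← Set.ncard_coe_finset]
  congr 1
  ext i
  simp

theorem wt_ne (F B : Set E) : wt (ne F) B = -((B ∩ F).ncard : ℝ) := by
  classical
  rw [wt_eq_sum, ncard_eq_filter, Finset.card_filter, Nat.cast_sum, ← Finset.sum_neg_distrib]
  refine Finset.sum_congr rfl fun i _ => ?_
  by_cases h : i ∈ F <;> simp [ne, h]

theorem wt_exchange (w : E → ℝ) {B : Set E} {e f : E} (he : e ∉ B) (hf : f ∈ B) :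
    wt w (insert e B \ {f}) = wt w B - w f + w e := by
  classical
  have hef : e ≠ f := fun h => he (h ▸ hf)
  have h1 : ∀ i, (insert e B \ {f}).indicator w i =
      B.indicator w i - (if i = f then w f else 0) + (if i = e then w e else 0) := by
    intro i
    by_cases hie : i = e
    · subst hie
      simp [he, hef]
    · by_cases hif : i = f
      · subst hif
        simp [hf, hie]
      · by_cases hiB : i ∈ B <;> simp [hiB, hie, hif]
  unfold wt
  rw [Finset.sum_congr rfl fun i _ => h1 i, Finset.sum_add_distrib, Finset.sum_sub_distrib]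
  simp

theorem circuit_nontrivial {M : Matroid E} {r : ℕ} (hM : OK M r) {C : Set E} (hC : M.IsCircuit C) :
    C.Nontrivial := by
  obtain ⟨e, he⟩ := hC.nonempty
  by_contra h
  rw [Set.not_nontrivial_iff] at h
  have hCe : C = {e} := by
    rcases h.eq_empty_or_singleton with h | ⟨a, ha⟩
    · rw [h] at he; exact absurd he (Set.notMem_empty _)
    · rw [ha] at he ⊢
      rw [Set.mem_singleton_iff.1 he]
  rw [hCe, Matroid.singleton_isCircuit] at hC
  exact (hM.nonloop e).not_isLoop hC

theorem isFlat_level {M : Matroid E} {r : ℕ} (hM : OK M r) {x : E → ℝ} (hx : x ∈ berg M) (t : ℝ) :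
    M.IsFlat {i | x i ≤ t} := by
  rw [Matroid.isFlat_iff_closure_eq]
  refine Set.Subset.antisymm ?_ (M.subset_closure _ (by rw [hM.ground]; exact Set.subset_univ _))
  intro e he
  by_contra heF
  obtain ⟨C, hCs, hC, heC⟩ := Matroid.exists_isCircuit_of_mem_closure he heF
  obtain ⟨a, ha, b, hb, hab, hxab, hmax⟩ := hx C hC
  have hxe : t < x e := not_le.1 heF
  have h1 : t < x a := lt_of_lt_of_le hxe (hmax e heC)
  have h2 : t < x b := hxab ▸ h1
  have h3 : a = e := by
    rcases hCs ha with h | h
    · exact h
    · exact absurd h (not_le.2 h1)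
  have h4 : b = e := by
    rcases hCs hb with h | h
    · exact h
    · exact absurd h (not_le.2 h2)
  exact hab (h3.trans h4.symm)

theorem ne_mem_berg {M : Matroid E} {r : ℕ} (hM : OK M r) {F : Set E} (hF : M.IsFlat F) :
    ne F ∈ berg M := by
  intro C hC
  by_cases hCF : C ⊆ F
  · obtain ⟨a, ha, b, hb, hab⟩ := circuit_nontrivial hM hC
    refine ⟨a, ha, b, hb, hab, ?_, ?_⟩
    · simp [ne, hCF ha, hCF hb]
    · intro g hg
      simp [ne, hCF ha, hCF hg]
  · obtain ⟨e, he, heF⟩ := Set.not_subset.1 hCF
    have hex : ∃ f ∈ C, f ≠ e ∧ f ∉ F := by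
      by_contra hno
      push Not at hno
      apply heF
      have h1 : C \ {e} ⊆ F := fun f hf => hno f hf.1 hf.2
      have h2 := hC.mem_closure_sdiff_singleton_of_mem he
      have h3 := M.closure_subset_closure h1 h2
      rwa [hF.closure] at h3
    obtain ⟨f, hf, hfe, hfF⟩ := hex
    refine ⟨e, he, f, hf, hfe.symm, ?_, ?_⟩
    · simp [ne, heF, hfF]
    · intro g _
      by_cases hg : g ∈ F <;> simp [ne, heF, hg]

theorem flat_of_ne_mem {M : Matroid E} {r : ℕ} (hM : OK M r) {F : Set E} (h : ne F ∈ berg M) :
    M.IsFlat F := by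
  have h1 := isFlat_level hM h (-1)
  have h2 : {i | ne F i ≤ -1} = F := by
    ext i
    by_cases hi : i ∈ F
    · simp [ne, hi]
    · simp [ne, hi]
  rwa [h2] at h1

theorem ini_level {M : Matroid E} {r : ℕ} (hM : OK M r) {x : E → ℝ} (t : ℝ) :
    Ini M x ⊆ Ini M (ne {i | x i ≤ t}) := by
  rintro B ⟨hB, hmin⟩
  set F : Set E := {i | x i ≤ t} with hF
  have hE : ∀ e : E, e ∈ M.E := fun e => by rw [hM.ground]; exact Set.mem_univ _
  have hspan : F ⊆ M.closure (B ∩ F) := by
    intro e heF
    by_contra hecl
    have hsub : B ∩ F ⊆ M.closure (B ∩ F) :=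
      M.subset_closure _ (by rw [hM.ground]; exact Set.subset_univ _)
    have heB : e ∉ B := fun heB => hecl (hsub ⟨heB, heF⟩)
    have hC := hB.fundCircuit_isCircuit (hE e) heB
    have heC := M.mem_fundCircuit e B
    have hex : ∃ f ∈ M.fundCircuit e B, f ≠ e ∧ f ∉ F := by
      by_contra hno
      push Not at hno
      apply hecl
      have h1 : M.fundCircuit e B \ {e} ⊆ B ∩ F := by
        intro f hf
        refine ⟨?_, hno f hf.1 hf.2⟩
        rcases M.fundCircuit_subset_insert e B hf.1 with h | h
        · exact absurd h hf.2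
        · exact h
      exact M.closure_subset_closure h1 (hC.mem_closure_sdiff_singleton_of_mem heC)
    obtain ⟨f, hf, hfe, hfF⟩ := hex
    have hfB : f ∈ B := by
      rcases M.fundCircuit_subset_insert e B hf with h | h
      · exact absurd h hfe
      · exact h
    have hind : M.Indep (insert e B \ {f}) :=
      (hB.indep.mem_fundCircuit_iff (by rw [hB.closure_eq]; exact hE e) heB).1 hf
    have hbase := hB.exchange_isBase_of_indep' hfB heB hind
    have h1 := hmin _ hbase
    rw [wt_exchange x heB hfB] at h1
    have h2 : x e ≤ t := heF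
    have h3 : t < x f := not_le.1 hfF
    linarith
  refine ⟨hB, fun B' hB' => ?_⟩
  rw [wt_ne, wt_ne, neg_le_neg_iff, Nat.cast_le]
  have hbas : M.IsBasis (B ∩ F) F := by
    rw [Matroid.isBasis_iff_indep_subset_closure]
    exact ⟨hB.indep.subset Set.inter_subset_left, Set.inter_subset_right, hspan⟩
  have h1 : (B' ∩ F).encard ≤ (B ∩ F).encard := by
    rw [hbas.encard_eq_eRk]
    exact (hB'.indep.subset Set.inter_subset_left).encard_le_eRk_of_subset Set.inter_subset_right
  rw [← (Set.toFinite (B' ∩ F)).cast_ncard_eq, ← (Set.toFinite (B ∩ F)).cast_ncard_eq] at h1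
  exact_mod_cast h1

theorem sum_le_of_levels (x : E → ℝ) : ∀ (n : ℕ) (A B : Finset E), A.card = n → B.card = n →
    (∀ t : ℝ, (B.filter (fun i => x i ≤ t)).card ≤ (A.filter (fun i => x i ≤ t)).card) →
    ∑ i ∈ A, x i ≤ ∑ i ∈ B, x i := by
  classical
  intro n
  induction n with
  | zero =>
    intro A B hA hB _
    rw [Finset.card_eq_zero] at hA hB
    rw [hA, hB]
  | succ n ih =>
    intro A B hA hB hlev
    have hAne : A.Nonempty := Finset.card_pos.1 (by omega)
    have hBne : B.Nonempty := Finset.card_pos.1 (by omega)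
    obtain ⟨a, haA, hamax⟩ := Finset.exists_max_image A x hAne
    obtain ⟨b, hbB, hbmax⟩ := Finset.exists_max_image B x hBne
    have hab : x a ≤ x b := by
      have h1 := hlev (x b)
      have h2 : B.filter (fun i => x i ≤ x b) = B := Finset.filter_true_of_mem hbmax
      rw [h2, hB] at h1
      have h3 : A.filter (fun i => x i ≤ x b) = A :=
        Finset.eq_of_subset_of_card_le (Finset.filter_subset _ _) (by omega)
      rw [← h3] at haA
      exact (Finset.mem_filter.1 haA).2
    have hA' : (A.erase a).card = n := by rw [Finset.card_erase_of_mem haA]; omega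
    have hB' : (B.erase b).card = n := by rw [Finset.card_erase_of_mem hbB]; omega
    have h := ih (A.erase a) (B.erase b) hA' hB' ?_
    · rw [← Finset.add_sum_erase A x haA, ← Finset.add_sum_erase B x hbB]
      exact add_le_add hab h
    · intro t
      by_cases ht : x a ≤ t
      · have h1 : (A.erase a).filter (fun i => x i ≤ t) = A.erase a := by
          apply Finset.filter_true_of_mem
          intro i hi
          exact (hamax i (Finset.mem_of_mem_erase hi)).trans ht
        rw [h1, hA', ← hB']
        exact Finset.card_filter_le _ _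
      · have h1 : (A.erase a).filter (fun i => x i ≤ t) = A.filter (fun i => x i ≤ t) := by
          ext i
          simp only [Finset.mem_filter, Finset.mem_erase]
          constructor
          · rintro ⟨⟨_, h2⟩, h3⟩; exact ⟨h2, h3⟩
          · rintro ⟨h2, h3⟩
            refine ⟨⟨?_, h2⟩, h3⟩
            rintro rfl
            exact ht h3
        rw [h1]
        refine le_trans (Finset.card_le_card ?_) (hlev t)
        exact Finset.filter_subset_filter _ (Finset.erase_subset _ _)

theorem t_LEV : S_LEV := by
  intro E _ M r hM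
  refine ⟨fun F => ⟨flat_of_ne_mem hM, ne_mem_berg hM⟩,
    fun x hx t => ⟨isFlat_level hM hx t, ini_level hM t⟩, ?_⟩
  classical
  intro K _ hKb x _ hxK
  by_contra hno
  push Not at hno
  apply hxK
  intro B hB B' hB'
  rw [wt_eq_sum, wt_eq_sum]
  have hcard : ∀ A : Set E, M.IsBase A → (Finset.univ.filter (fun i => i ∈ A)).card = r := by
    intro A hA
    rw [← hM.rank A hA, ← Set.ncard_coe_finset]
    congr 1
    ext i
    simp
  refine sum_le_of_levels x r _ _ (hcard B (hKb B hB)) (hcard B' hB') fun t => ?_
  have h1 := hno t B hB B' hB'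
  rw [wt_ne, wt_ne, neg_le_neg_iff, Nat.cast_le, ncard_eq_filter, ncard_eq_filter] at h1
  exact h1

theorem t_SAME : S_SAME := by
  intro E _ M N r hM hN hb B
  have hflat : ∀ F : Set E, M.IsFlat F ↔ N.IsFlat F := by
    intro F
    rw [← (t_LEV E M r hM).1 F, ← (t_LEV E N r hN).1 F, hb]
  have hMN : M = N := by
    apply Matroid.ext_closure
    intro X
    rw [Matroid.closure_def, Matroid.closure_def, hM.ground, hN.ground]
    simp only [hflat]
  rw [hMN]

end Run7.h882.BF
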